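import Pool.Agent.H126R2.CDC.Main

set_option autoImplicit false
set_option linter.unusedSectionVars false

/-!
Circuit double covers of subgraphs, and faithful circuit covers assembled from them.
-/

namespace Pool.Agent.TH300.FC

open Finset
open Pool.Agent.H126R2.CDC

variable {V E : Type} [Fintype V] [DecidableEq V] [Fintype E] [DecidableEq E]

/-- the subgraph of `G` formed by the edges satisfying `p` -/
def sub (G : MGraph V E) (p : E → Prop) : MGraph V {e : E // p e} := ⟨fun e => G.ends e.1⟩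

lemma deg_map (G : MGraph V E) (p : E → Prop) [DecidablePred p] (D : Finset {e : E // p e})
    (v : V) : G.deg (D.map (Function.Embedding.subtype p)) v = (sub G p).deg D v := by
  unfold MGraph.deg
  rw [Finset.filter_map, Finset.filter_map, Finset.card_map, Finset.card_map]
  rfl

lemma up (G : MGraph V E) (p : E → Prop) [DecidablePred p] (D : Finset {e : E // p e})
    (h : (sub G p).IsCircuit D) : G.IsCircuit (D.map (Function.Embedding.subtype p)) := by
  obtain ⟨h1, h2, h3⟩ := h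
  refine ⟨h1.map, fun v => ?_, ?_⟩
  · rw [deg_map]; exact h2 v
  · intro e he f hf
    rw [Finset.mem_map] at he hf
    obtain ⟨a, ha, rfl⟩ := he
    obtain ⟨b, hb, rfl⟩ := hf
    refine (h3 a ha b hb).lift (fun x => x.1) ?_
    rintro x y ⟨hy, v, hv1, hv2⟩
    exact ⟨Finset.mem_map_of_mem _ hy, v, hv1, hv2⟩

lemma chain (G : MGraph V E) (p : E → Prop) [DecidablePred p] (C : Finset E)
    (hC : ∀ e ∈ C, p e) (x y : E)
    (h : Relation.ReflTransGen (fun a b => b ∈ C ∧ ∃ v, v ∈ G.ends a ∧ v ∈ G.ends b) x y)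
    (hx : p x) : ∃ hy : p y,
      Relation.ReflTransGen (fun a b : {e : E // p e} => b ∈ C.subtype p ∧
        ∃ v, v ∈ (sub G p).ends a ∧ v ∈ (sub G p).ends b) ⟨x, hx⟩ ⟨y, hy⟩ := by
  induction h with
  | refl => exact ⟨hx, Relation.ReflTransGen.refl⟩
  | tail _ hbc ih =>
    obtain ⟨hb, ih⟩ := ih
    refine ⟨hC _ hbc.1, ih.tail ⟨?_, hbc.2⟩⟩
    rw [Finset.mem_subtype]
    exact hbc.1

lemma down (G : MGraph V E) (p : E → Prop) [DecidablePred p] (C : Finset E)
    (hC : ∀ e ∈ C, p e) (h : G.IsCircuit C) : (sub G p).IsCircuit (C.subtype p) := by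
  have hmap : (C.subtype p).map (Function.Embedding.subtype p) = C := by
    rw [Finset.subtype_map]
    exact Finset.filter_true_of_mem hC
  obtain ⟨h1, h2, h3⟩ := h
  refine ⟨?_, fun v => ?_, ?_⟩
  · obtain ⟨e, he⟩ := h1
    exact ⟨⟨e, hC e he⟩, by rw [Finset.mem_subtype]; exact he⟩
  · rw [← deg_map, hmap]; exact h2 v
  · rintro ⟨e, he⟩ he' ⟨f, hf⟩ hf'
    rw [Finset.mem_subtype] at he' hf'
    obtain ⟨_, h4⟩ := chain G p C hC e f (h3 e he' f hf') he
    exact h4

lemma layer (G : MGraph V E) (p : E → Prop) [DecidablePred p]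
    (h : ∀ e, p e → ∃ C, G.IsCircuit C ∧ e ∈ C ∧ ∀ f ∈ C, p f) :
    ∃ F : Multiset (Finset E), (∀ C ∈ F, G.IsCircuit C) ∧
      ∀ e, F.countP (fun C => e ∈ C) = if p e then 2 else 0 := by
  have hb : (sub G p).Bridgeless := by
    rintro ⟨e, he⟩
    obtain ⟨C, hC, heC, hCp⟩ := h e he
    exact ⟨C.subtype p, down G p C hCp hC, by rw [Finset.mem_subtype]; exact heC⟩
  obtain ⟨F, hF1, hF2⟩ := (sub G p).exists_cdc hb
  refine ⟨F.map (fun D => D.map (Function.Embedding.subtype p)), ?_, ?_⟩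
  · intro C hC
    rw [Multiset.mem_map] at hC
    obtain ⟨D, hD, rfl⟩ := hC
    exact up G p D (hF1 D hD)
  · intro e
    rw [Multiset.countP_map]
    by_cases he : p e
    · rw [if_pos he, ← hF2 ⟨e, he⟩, Multiset.countP_eq_card_filter]
      congr 1
      apply Multiset.filter_congr
      intro D _
      rw [Finset.mem_map]
      constructor
      · rintro ⟨a, ha, hae⟩
        have : a = ⟨e, he⟩ := Subtype.ext hae
        rw [← this]; exact ha
      · intro ha
        exact ⟨_, ha, rfl⟩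
    · rw [if_neg he, Multiset.card_eq_zero, Multiset.filter_eq_nil]
      intro D _ hD
      rw [Finset.mem_map] at hD
      obtain ⟨a, _, hae⟩ := hD
      apply he
      have : a.1 = e := hae
      rw [← this]; exact a.2

lemma layers (G : MGraph V E) (w : E → ℕ)
    (h : ∀ e, 2 ≤ w e → ∃ C, G.IsCircuit C ∧ e ∈ C ∧ ∀ f ∈ C, 2 * (w e / 2) ≤ w f) (n : ℕ) :
    ∃ F : Multiset (Finset E), (∀ C ∈ F, G.IsCircuit C) ∧
      ∀ e, F.countP (fun C => e ∈ C) = 2 * min n (w e / 2) := by
  induction n with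
  | zero => exact ⟨0, by simp, by simp⟩
  | succ n ih =>
    obtain ⟨F, hF1, hF2⟩ := ih
    obtain ⟨F', hF1', hF2'⟩ := layer G (fun e => n + 1 ≤ w e / 2) (by
      intro e he
      obtain ⟨C, hC, heC, hCw⟩ := h e (by omega)
      refine ⟨C, hC, heC, fun f hf => ?_⟩
      have := hCw f hf
      omega)
    refine ⟨F + F', ?_, ?_⟩
    · intro C hC
      rcases Multiset.mem_add.1 hC with hC | hC
      · exact hF1 C hC
      · exact hF1' C hC
    · intro e
      rw [Multiset.countP_add, hF2 e, hF2' e]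
      split_ifs with h1 <;> omega

/-- adding the edges of odd weight, decomposed into circuits -/
lemma finish (G : MGraph V E) (w : E → ℕ)
    (hodd : ∀ v, Even (G.deg (univ.filter fun e => Odd (w e)) v))
    (h : ∃ F : Multiset (Finset E), (∀ C ∈ F, G.IsCircuit C) ∧
      ∀ e, F.countP (fun C => e ∈ C) = 2 * (w e / 2)) :
    ∃ F : Multiset (Finset E), (∀ C ∈ F, G.IsCircuit C) ∧
      ∀ e, F.countP (fun C => e ∈ C) = w e := by
  obtain ⟨F, hF1, hF2⟩ := h
  obtain ⟨F', hF1', hF2'⟩ := G.decompose _ (univ.filter fun e => Odd (w e)) rfl hodd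
  refine ⟨F + F', ?_, ?_⟩
  · intro C hC
    rcases Multiset.mem_add.1 hC with hC | hC
    · exact hF1 C hC
    · exact hF1' C hC
  · intro e
    rw [Multiset.countP_add, hF2 e, hF2' e]
    simp only [Finset.mem_filter, Finset.mem_univ, true_and]
    split_ifs with h2
    · obtain ⟨m, hm⟩ := h2
      omega
    · rw [Nat.not_odd_iff_even] at h2
      obtain ⟨m, hm⟩ := h2
      omega

/-- several layers -/
lemma sum_layers {ι : Type} [Fintype ι] [DecidableEq ι] (G : MGraph V E) (L : E → Finset ι)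
    (h : ∀ i e, i ∈ L e → ∃ C, G.IsCircuit C ∧ e ∈ C ∧ ∀ f ∈ C, i ∈ L f) :
    ∃ F : Multiset (Finset E), (∀ C ∈ F, G.IsCircuit C) ∧
      ∀ e, F.countP (fun C => e ∈ C) = 2 * (L e).card := by
  choose F hF1 hF2 using fun i => layer G (fun e => i ∈ L e) (h i)
  refine ⟨∑ i, F i, ?_, ?_⟩
  · intro C hC
    rw [Multiset.mem_sum] at hC
    obtain ⟨i, _, hi⟩ := hC
    exact hF1 i C hi
  · intro e
    have h1 : ∀ s : Finset ι, (∑ c ∈ s, F c).countP (fun C => e ∈ C) =
        ∑ c ∈ s, (F c).countP (fun C => e ∈ C) := by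
      intro s
      induction s using Finset.induction_on with
      | empty => simp
      | insert c s hc ih => rw [Finset.sum_insert hc, Finset.sum_insert hc, Multiset.countP_add, ih]
    rw [h1, Finset.sum_congr rfl (fun i _ => hF2 i e), ← Finset.sum_filter, Finset.sum_const,
      smul_eq_mul, mul_comm]
    congr 2
    ext i
    simp

/-- an edge of an even edge set lies on a circuit inside it -/
lemma circ_of_even (G : MGraph V E) (D : Finset E) (hD : G.IsEven D) (e : E) (he : e ∈ D) :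
    ∃ C, G.IsCircuit C ∧ e ∈ C ∧ C ⊆ D := by
  obtain ⟨F, hF1, hF2⟩ := G.decompose _ D rfl hD
  have h1 : 0 < F.countP (fun C => e ∈ C) := by rw [hF2 e, if_pos he]; exact Nat.one_pos
  obtain ⟨C, hC, heC⟩ := Multiset.countP_pos.1 h1
  refine ⟨C, hF1 C hC, heC, fun f hf => ?_⟩
  by_contra hfD
  have h2 : 0 < F.countP (fun C => f ∈ C) := Multiset.countP_pos.2 ⟨C, hC, hf⟩
  rw [hF2 f, if_neg hfD] at h2
  exact absurd h2 (lt_irrefl 0)

end Pool.Agent.TH300.FC
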