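import Pool.Agent.TH300.FC.Base

set_option autoImplicit false
set_option linter.unusedSectionVars false

/-!
Cuts, flows and the duality between them over the field with two elements.
-/

namespace Pool.Agent.TH300.FC

open Finset
open Pool.Agent.H126R2.CDC
open Pool.Agent.Helper879.ECD (F2 IsFlow f2_cases f2_add_self)

section

variable {W E : Type} [Fintype W] [DecidableEq W] [Fintype E] [DecidableEq E]

/-- either `x` is a coboundary plus a vector supported on `P`, or some flow vanishing on `P` is
not orthogonal to `x` -/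
lemma dual_a (a b : E → W) (P : Finset E) (x : E → F2) :
    (∃ (c : W → F2) (η : E → F2), (∀ g, g ∉ P → η g = 0) ∧
      ∀ g, x g = (c (a g) + c (b g)) + η g) ∨
    ∃ d : E → F2, IsFlow a b d ∧ (∀ g ∈ P, d g = 0) ∧ ∑ e, d e * x e ≠ 0 := by
  let N : Submodule F2 (E → F2) :=
    { carrier := {η | ∀ g, g ∉ P → η g = 0}
      zero_mem' := fun g _ => rfl
      add_mem' := by
        intro u v hu hv g hg
        rw [Pi.add_apply, hu g hg, hv g hg, add_zero]
      smul_mem' := by
        intro r u hu g hg
        rw [Pi.smul_apply, hu g hg, smul_zero] }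
  by_cases hx : x ∈ LinearMap.range (cob a b) ⊔ N
  · left
    rw [Submodule.mem_sup] at hx
    obtain ⟨u, ⟨c, hc⟩, η, hη, hsum⟩ := hx
    refine ⟨c, η, hη, fun g => ?_⟩
    rw [← hsum, ← hc]
    rfl
  · right
    obtain ⟨f, hf1, hf2⟩ := Submodule.exists_dual_map_eq_bot_of_notMem hx inferInstance
    have hz : ∀ u ∈ LinearMap.range (cob a b) ⊔ N, f u = 0 := by
      intro u hu
      have : f u ∈ (LinearMap.range (cob a b) ⊔ N).map f := Submodule.mem_map_of_mem hu
      rw [hf2] at this
      exact (Submodule.mem_bot F2).1 this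
    refine ⟨fun e => f (Pi.single e 1), ?_, ?_, ?_⟩
    · intro c
      have h1 := hz (cob a b c) (Submodule.mem_sup_left ⟨c, rfl⟩)
      rw [functional_eq] at h1
      exact h1
    · intro g hg
      apply hz
      apply Submodule.mem_sup_right
      intro g' hg'
      rw [Pi.single_apply, if_neg]
      rintro rfl
      exact hg' hg
    · rw [← functional_eq]
      exact hf1

end

variable {V E : Type} [Fintype V] [DecidableEq V] [Fintype E] [DecidableEq E]

open Classical in
/-- the set of the edges of `G` with exactly one end in `X` -/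
noncomputable def cut {V E : Type} [Fintype V] [Fintype E] (G : MGraph V E) (X : Finset V) :
    Finset E :=
  univ.filter fun e => (∃ x, x ∈ X ∧ x ∈ G.ends e) ∧ ∃ y, y ∉ X ∧ y ∈ G.ends e

/-- the indicator of a vertex set -/
def ind (X : Finset V) (x : V) : F2 := if x ∈ X then 1 else 0

lemma mem_cut_iff (G : MGraph V E) (v : E × Bool → V)
    (hv : ∀ e, G.ends e = s(v (e, false), v (e, true))) (X : Finset V) (e : E) :
    e ∈ cut G X ↔ ind X (v (e, false)) + ind X (v (e, true)) = 1 := by
  classical
  unfold cut ind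
  simp only [Finset.mem_filter, Finset.mem_univ, true_and]
  rw [hv e]
  simp only [Sym2.mem_iff]
  by_cases h1 : v (e, false) ∈ X <;> by_cases h2 : v (e, true) ∈ X
  · simp only [h1, h2, if_true]
    constructor
    · rintro ⟨_, ⟨y, hy, rfl | rfl⟩⟩
      · exact absurd h1 hy
      · exact absurd h2 hy
    · intro h; exact absurd h (by decide)
  · simp only [h1, h2, if_true, if_false]
    refine ⟨fun _ => by decide, fun _ => ⟨⟨_, h1, Or.inl rfl⟩, ⟨_, h2, Or.inr rfl⟩⟩⟩
  · simp only [h1, h2, if_true, if_false]
    refine ⟨fun _ => by decide, fun _ => ⟨⟨_, h2, Or.inr rfl⟩, ⟨_, h1, Or.inl rfl⟩⟩⟩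
  · simp only [h1, h2, if_false]
    constructor
    · rintro ⟨⟨x, hx, rfl | rfl⟩, _⟩
      · exact absurd hx h1
      · exact absurd hx h2
    · intro h; exact absurd h (by decide)

/-- a circuit meets every cut in an even number of edges -/
lemma even_inter (G : MGraph V E) (C : Finset E) (hC : G.IsCircuit C) (X : Finset V) :
    Even (C ∩ cut G X).card := by
  classical
  obtain ⟨v, hv⟩ := G.exists_halves
  have h1 := (isFl_iff v _).1 ((G.isEven_iff v hv C).1 hC.isEven) (ind X)
  have h2 : ∀ e ∈ (univ : Finset E), (if e ∈ C then (1 : F2) else 0) *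
      (ind X (v (e, false)) + ind X (v (e, true))) = if e ∈ C ∩ cut G X then 1 else 0 := by
    intro e _
    have h3 := mem_cut_iff G v hv X e
    by_cases h4 : e ∈ C
    · rw [if_pos h4, one_mul]
      by_cases h5 : e ∈ cut G X
      · rw [if_pos (Finset.mem_inter.2 ⟨h4, h5⟩)]; exact h3.1 h5
      · rw [if_neg (fun h => h5 (Finset.mem_inter.1 h).2)]
        rcases f2_cases (ind X (v (e, false)) + ind X (v (e, true))) with h6 | h6
        · exact h6
        · exact absurd (h3.2 h6) h5
    · rw [if_neg h4, if_neg (fun h => h4 (Finset.mem_inter.1 h).1), zero_mul]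
  rw [Finset.sum_congr rfl h2] at h1
  rw [Finset.sum_boole, Finset.filter_mem_eq_inter, Finset.univ_inter] at h1
  exact (ZMod.natCast_eq_zero_iff_even).1 h1

/-- Either there is a cut containing `t` inside `P ∪ {t}`, or a circuit through `t` avoiding `P`
(for `t ∉ P`). -/
lemma cut_or_circuit (G : MGraph V E) (P : Finset E) (t : E) (ht : t ∉ P) :
    (∃ X : Finset V, t ∈ cut G X ∧ ∀ g ∈ cut G X, g = t ∨ g ∈ P) ∨
    ∃ C, G.IsCircuit C ∧ t ∈ C ∧ ∀ g ∈ C, g ∉ P := by
  classical
  obtain ⟨v, hv⟩ := G.exists_halves
  rcases dual_a (fun e => v (e, false)) (fun e => v (e, true)) P (Pi.single t 1) with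
    ⟨c, η, h1, h2⟩ | ⟨d, h1, h2, h3⟩
  · left
    refine ⟨univ.filter (fun x => c x = 1), ?_, ?_⟩
    · rw [mem_cut_iff G v hv]
      have h3 := h2 t
      rw [Pi.single_eq_same, h1 t ht, add_zero] at h3
      have h4 : ∀ x, ind (univ.filter (fun x => c x = 1)) x = c x := by
        intro x
        unfold ind
        rcases f2_cases (c x) with h5 | h5 <;> simp [h5]
      rw [h4, h4]
      exact h3.symm
    · intro g hg
      by_contra hcon
      push Not at hcon
      rw [mem_cut_iff G v hv] at hg
      have h4 : ∀ x, ind (univ.filter (fun x => c x = 1)) x = c x := by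
        intro x
        unfold ind
        rcases f2_cases (c x) with h5 | h5 <;> simp [h5]
      rw [h4, h4] at hg
      have h3 := h2 g
      rw [Pi.single_eq_of_ne hcon.1, h1 g hcon.2, add_zero, hg] at h3
      exact absurd h3 (by decide)
  · right
    have h4 : d t = 1 := by
      rcases f2_cases (d t) with h5 | h5
      · exfalso
        apply h3
        rw [Finset.sum_eq_single t]
        · rw [h5, zero_mul]
        · intro b _ hb
          rw [Pi.single_eq_of_ne hb, mul_zero]
        · intro h; exact absurd (Finset.mem_univ _) h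
      · exact h5
    have hev : G.IsEven (univ.filter (fun f => d f = 1)) := by
      rw [G.isEven_iff v hv, isFl_iff]
      have h4 : (fun f => if f ∈ univ.filter (fun f => d f = 1) then (1 : F2) else 0) = d := by
        ext f
        rcases f2_cases (d f) with h5 | h5 <;> simp [h5]
      rw [h4]
      exact h1
    obtain ⟨C, hC1, hC2, hC3⟩ := circ_of_even G _ hev t (by simp [h4])
    refine ⟨C, hC1, hC2, fun g hg hgP => ?_⟩
    have h5 := (Finset.mem_filter.1 (hC3 hg)).2
    rw [h2 g hgP] at h5
    exact absurd h5 (by decide)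

end Pool.Agent.TH300.FC
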